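import Mathlib
import Pool.Agent.H656.G.R_seed8.Helper281.Sc.LN

set_option autoImplicit false

/-!
# Feldman-Moore: a countable Borel equivalence relation is generated by Borel involutions
-/

namespace Pool.Agent.H139R3.FM

open Set MeasureTheory

universe u

variable {Y : Type u} [MeasurableSpace Y] [StandardBorelSpace Y]

/-- A measurable set which is the graph of a partial injection with disjoint domain and range
extends to a measurable involution. -/
theorem exists_invol (P : Set (Y × Y)) (hP : MeasurableSet P)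
    (h1 : ∀ x y y', (x, y) ∈ P → (x, y') ∈ P → y = y')
    (h2 : ∀ x x' y, (x, y) ∈ P → (x', y) ∈ P → x = x')
    (h3 : ∀ x y z, (x, y) ∈ P → (y, z) ∉ P) :
    ∃ s : Y → Y, Measurable s ∧ (∀ x, s (s x) = x) ∧ (∀ x y, (x, y) ∈ P → s x = y) ∧
      ∀ x, s x = x ∨ (x, s x) ∈ P ∨ (s x, x) ∈ P := by
  classical
  let s : Y → Y := fun x => if h : ∃ y, (x, y) ∈ P then h.choose else
    if h' : ∃ y, (y, x) ∈ P then h'.choose else x
  have e1 : ∀ x y, (x, y) ∈ P → s x = y := by
    intro x y hxy
    have h : ∃ y, (x, y) ∈ P := ⟨y, hxy⟩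
    have : s x = h.choose := dif_pos h
    rw [this]
    exact h1 _ _ _ h.choose_spec hxy
  have e2 : ∀ x y, (x, y) ∈ P → s y = x := by
    intro x y hxy
    have hn : ¬ ∃ z, (y, z) ∈ P := by
      rintro ⟨z, hz⟩
      exact h3 _ _ _ hxy hz
    have h' : ∃ z, (z, y) ∈ P := ⟨x, hxy⟩
    have : s y = h'.choose := by
      show (if h : ∃ z, (y, z) ∈ P then h.choose else
        if h' : ∃ z, (z, y) ∈ P then h'.choose else y) = _
      rw [dif_neg hn, dif_pos h']
    rw [this]
    exact h2 _ _ _ h'.choose_spec hxy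
  have e3 : ∀ x, (¬ ∃ y, (x, y) ∈ P) → (¬ ∃ y, (y, x) ∈ P) → s x = x := by
    intro x h h'
    show (if h : ∃ z, (x, z) ∈ P then h.choose else
        if h' : ∃ z, (z, x) ∈ P then h'.choose else x) = _
    rw [dif_neg h, dif_neg h']
  have i1 : InjOn (Prod.fst : Y × Y → Y) P := by
    rintro ⟨a, b⟩ h ⟨a', b'⟩ h' hab
    simp only at hab
    subst hab
    rw [h1 _ _ _ h h']
  have i2 : InjOn (Prod.snd : Y × Y → Y) P := by
    rintro ⟨a, b⟩ h ⟨a', b'⟩ h' hab
    simp only at hab
    subst hab
    rw [h2 _ _ _ h h']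
  refine ⟨s, ?_, ?_, e1, ?_⟩
  · intro C hC
    have e : s ⁻¹' C = (Prod.fst '' (P ∩ Prod.snd ⁻¹' C)) ∪ (Prod.snd '' (P ∩ Prod.fst ⁻¹' C)) ∪
        (C \ ((Prod.fst '' P) ∪ (Prod.snd '' P))) := by
      ext x
      constructor
      · intro hx
        by_cases h : ∃ y, (x, y) ∈ P
        · obtain ⟨y, hy⟩ := h
          left; left
          refine ⟨(x, y), ⟨hy, ?_⟩, rfl⟩
          show y ∈ C
          rw [← e1 _ _ hy]
          exact hx
        · by_cases h' : ∃ y, (y, x) ∈ P
          · obtain ⟨y, hy⟩ := h'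
            left; right
            refine ⟨(y, x), ⟨hy, ?_⟩, rfl⟩
            show y ∈ C
            rw [← e2 _ _ hy]
            exact hx
          · right
            have hx' : s x ∈ C := hx
            rw [e3 x h h'] at hx'
            refine ⟨hx', ?_⟩
            rintro (⟨⟨p, q⟩, hpq, rfl⟩ | ⟨⟨p, q⟩, hpq, rfl⟩)
            · exact h ⟨q, hpq⟩
            · exact h' ⟨p, hpq⟩
      · rintro ((⟨⟨p, q⟩, ⟨hpq, hq⟩, rfl⟩ | ⟨⟨p, q⟩, ⟨hpq, hq⟩, rfl⟩) | ⟨hx, hx'⟩)
        · show s p ∈ C
          rw [e1 _ _ hpq]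
          exact hq
        · show s q ∈ C
          rw [e2 _ _ hpq]
          exact hq
        · show s x ∈ C
          rw [e3 x]
          · exact hx
          · rintro ⟨y, hy⟩
            exact hx' (Or.inl ⟨(x, y), hy, rfl⟩)
          · rintro ⟨y, hy⟩
            exact hx' (Or.inr ⟨(y, x), hy, rfl⟩)
    rw [e]
    refine MeasurableSet.union (MeasurableSet.union ?_ ?_) (hC.diff (MeasurableSet.union ?_ ?_))
    · exact (hP.inter (measurable_snd hC)).image_of_measurable_injOn measurable_fst
        (i1.mono inter_subset_left)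
    · exact (hP.inter (measurable_fst hC)).image_of_measurable_injOn measurable_snd
        (i2.mono inter_subset_left)
    · exact hP.image_of_measurable_injOn measurable_fst i1
    · exact hP.image_of_measurable_injOn measurable_snd i2
  · intro x
    by_cases h : ∃ y, (x, y) ∈ P
    · obtain ⟨y, hy⟩ := h
      rw [e1 _ _ hy, e2 _ _ hy]
    · by_cases h' : ∃ y, (y, x) ∈ P
      · obtain ⟨y, hy⟩ := h'
        rw [e2 _ _ hy, e1 _ _ hy]
      · rw [e3 x h h', e3 x h h']
  · intro x
    by_cases h : ∃ y, (x, y) ∈ P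
    · obtain ⟨y, hy⟩ := h
      right; left
      rw [e1 _ _ hy]
      exact hy
    · by_cases h' : ∃ y, (y, x) ∈ P
      · obtain ⟨y, hy⟩ := h'
        right; right
        rw [e2 _ _ hy]
        exact hy
      · left
        exact e3 x h h'

/-- Feldman-Moore theorem: a countable Borel equivalence relation on a standard Borel space is the
union of the graphs of countably many Borel involutions. -/
theorem feldman_moore (R : Y → Y → Prop) (hR : Equivalence R)
    (hm : MeasurableSet {p : Y × Y | R p.1 p.2}) (hc : ∀ y, {y' | R y y'}.Countable) :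
    ∃ s : ℕ → Y → Y, (∀ n, Measurable (s n)) ∧ (∀ n x, s n (s n x) = x) ∧
      ∀ x y, R x y ↔ ∃ n, s n x = y := by
  classical
  let := upgradeStandardBorel Y
  obtain ⟨G, hG1, hG2, hG3⟩ := Pool.Agent.Helper281.LN.lusin_novikov hm hc
  obtain ⟨e, he, hinj⟩ := MeasurableSpace.measurable_injection_nat_bool_of_countablySeparated Y
  let P : ℕ × ℕ × ℕ → Set (Y × Y) := fun t => {p | p ∈ G t.1 ∧ (p.2, p.1) ∈ G t.2.1 ∧
    e p.1 t.2.2 = true ∧ e p.2 t.2.2 = false}
  have hPm : ∀ t, MeasurableSet (P t) := by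
    intro t
    have m1 : MeasurableSet {p : Y × Y | p ∈ G t.1} := hG1 _
    have m2 : MeasurableSet {p : Y × Y | (p.2, p.1) ∈ G t.2.1} :=
      (hG1 t.2.1).preimage (measurable_snd.prodMk measurable_fst)
    have m3 : MeasurableSet {p : Y × Y | e p.1 t.2.2 = true} :=
      (measurableSet_singleton true).preimage
        ((measurable_pi_apply t.2.2).comp (he.comp measurable_fst))
    have m4 : MeasurableSet {p : Y × Y | e p.2 t.2.2 = false} :=
      (measurableSet_singleton false).preimage
        ((measurable_pi_apply t.2.2).comp (he.comp measurable_snd))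
    exact m1.inter (m2.inter (m3.inter m4))
  have key : ∀ t, ∃ s : Y → Y, Measurable s ∧ (∀ x, s (s x) = x) ∧ (∀ x y, (x, y) ∈ P t → s x = y) ∧
      ∀ x, s x = x ∨ (x, s x) ∈ P t ∨ (s x, x) ∈ P t := by
    intro t
    refine exists_invol (P t) (hPm t) ?_ ?_ ?_
    · intro x y y' h h'
      exact hG3 _ _ _ _ h.1 h'.1
    · intro x x' y h h'
      exact hG3 _ _ _ _ h.2.1 h'.2.1
    · intro x y z h h'
      have a1 := h.2.2.2
      have a2 := h'.2.2.1
      simp only at a1 a2
      rw [a1] at a2
      exact absurd a2 (by decide)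
  choose s hs1 hs2 hs3 hs4 using key
  obtain ⟨d, hd⟩ := exists_surjective_nat (Option (ℕ × ℕ × ℕ))
  have hGR : ∀ n x y, (x, y) ∈ G n → R x y := by
    intro n x y h
    have : (x, y) ∈ ⋃ n, G n := mem_iUnion.2 ⟨n, h⟩
    rw [hG2] at this
    exact this
  have hRG : ∀ x y, R x y → ∃ n, (x, y) ∈ G n := by
    intro x y h
    have : (x, y) ∈ ⋃ n, G n := by rw [hG2]; exact h
    exact mem_iUnion.1 this
  have hsR : ∀ t x, R x (s t x) := by
    intro t x
    rcases hs4 t x with h | h | h
    · rw [h]; exact hR.refl x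
    · exact hGR _ _ _ h.1
    · exact hR.symm (hGR _ _ _ h.1)
  let w : Option (ℕ × ℕ × ℕ) → Y → Y := fun o => o.elim id s
  have w0 : w none = id := rfl
  have w1 : ∀ t, w (some t) = s t := fun _ => rfl
  have wm : ∀ o, Measurable (w o) := by
    rintro (_ | t)
    · exact measurable_id
    · exact hs1 t
  have wi : ∀ o x, w o (w o x) = x := by
    rintro (_ | t) x
    · rfl
    · exact hs2 t x
  have wR : ∀ o x, R x (w o x) := by
    rintro (_ | t) x
    · exact hR.refl x
    · exact hsR t x
  refine ⟨fun n => w (d n), fun n => wm _, fun n x => wi _ _, ?_⟩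
  intro x y
  constructor
  · intro h
    by_cases hxy : x = y
    · obtain ⟨n, hn⟩ := hd none
      exact ⟨n, by beta_reduce; rw [hn, w0, hxy]; rfl⟩
    · obtain ⟨k, hk⟩ : ∃ k, e x k ≠ e y k := by
        by_contra hcon
        push Not at hcon
        exact hxy (hinj (funext hcon))
      obtain ⟨n1, hn1⟩ := hRG _ _ h
      obtain ⟨n2, hn2⟩ := hRG _ _ (hR.symm h)
      cases hx : e x k with
      | true =>
        have hy : e y k = false := by
          cases hy : e y k with
          | true => rw [hx, hy] at hk; exact absurd rfl hk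
          | false => rfl
        obtain ⟨n, hn⟩ := hd (some (n1, n2, k))
        refine ⟨n, ?_⟩
        beta_reduce
        rw [hn, w1]
        exact hs3 _ _ _ ⟨hn1, hn2, hx, hy⟩
      | false =>
        have hy : e y k = true := by
          cases hy : e y k with
          | false => rw [hx, hy] at hk; exact absurd rfl hk
          | true => rfl
        obtain ⟨n, hn⟩ := hd (some (n2, n1, k))
        refine ⟨n, ?_⟩
        beta_reduce
        rw [hn, w1]
        have := hs3 (n2, n1, k) y x ⟨hn2, hn1, hy, hx⟩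
        rw [← this, hs2]
  · rintro ⟨n, rfl⟩
    exact wR _ _

end Pool.Agent.H139R3.FM
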